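import Pool.Agent.H93.SC.Targets2
import Pool.Agent.H19.SCD.TargetsD
import Pool.Agent.H64.SC.Api

/-!
GAU: Gauss lemma for one discrete valuation (MP_f2954d_ag).
-/

namespace Pool.Agent.H49.SCD

open SC MvPolynomial

section

variable {k K ι : Type} [Field k] [Field K] [Algebra k K] (v : DV k K)

/-- all coefficients have nonnegative order, and one coefficient has order zero -/
def Prim (P : MvPolynomial ι K) : Prop :=
  (∀ a, 0 ≤ v.ord (P.coeff a)) ∧ ∃ a, P.coeff a ≠ 0 ∧ v.ord (P.coeff a) = 0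

lemma exists_lift (P : MvPolynomial ι K) (h : ∀ a, 0 ≤ v.ord (P.coeff a)) :
    ∃ P0 : MvPolynomial ι v.vs, MvPolynomial.map (algebraMap v.vs K) P0 = P := by
  have : P ∈ Set.range (MvPolynomial.map (algebraMap v.vs K)) := by
    rw [mem_range_map_iff_coeffs_subset]
    intro c hc
    rw [Finset.mem_coe, mem_coeffs_iff] at hc
    obtain ⟨a, -, rfl⟩ := hc
    exact ⟨⟨P.coeff a, h a⟩, rfl⟩
  exact this

lemma prim_mul {P Q : MvPolynomial ι K} (hP : Prim v P) (hQ : Prim v Q) :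
    ∃ a, (P * Q).coeff a ≠ 0 ∧ v.ord ((P * Q).coeff a) = 0 := by
  obtain ⟨P0, hP0⟩ := exists_lift v P hP.1
  obtain ⟨Q0, hQ0⟩ := exists_lift v Q hQ.1
  have aux : ∀ (R : MvPolynomial ι K) (R0 : MvPolynomial ι v.vs),
      MvPolynomial.map (algebraMap v.vs K) R0 = R →
      ((∃ a, R.coeff a ≠ 0 ∧ v.ord (R.coeff a) = 0) ↔
        MvPolynomial.map (IsLocalRing.residue v.vs) R0 ≠ 0) := by
    intro R R0 hR
    rw [ne_zero_iff]
    refine exists_congr fun a => ?_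
    rw [coeff_map, ← hR, coeff_map, IsLocalRing.residue_ne_zero_iff_isUnit, v.isUnit_vs_iff]
    rfl
  have hP1 := (aux P P0 hP0).1 hP.2
  have hQ1 := (aux Q Q0 hQ0).1 hQ.2
  have h := mul_ne_zero hP1 hQ1
  rw [← map_mul] at h
  exact (aux (P * Q) (P0 * Q0) (by rw [map_mul, hP0, hQ0])).2 h

lemma exists_scale (P : MvPolynomial ι K) (hP : P ≠ 0) : ∃ (n : ℤ) (t : K), t ≠ 0 ∧
    v.ord t = -n ∧ Prim v (C t * P) ∧ ∀ a, P.coeff a ≠ 0 → n ≤ v.ord (P.coeff a) := by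
  classical
  have hs : P.support.Nonempty := by rwa [support_nonempty]
  obtain ⟨a0, ha0, hmin⟩ := P.support.exists_min_image (fun a => v.ord (P.coeff a)) hs
  have hmin' : ∀ a, P.coeff a ≠ 0 → v.ord (P.coeff a0) ≤ v.ord (P.coeff a) :=
    fun a ha => hmin a (mem_support_iff.2 ha)
  rw [mem_support_iff] at ha0
  obtain ⟨t, ht, hto⟩ := v.exists_ord (-(v.ord (P.coeff a0)))
  refine ⟨v.ord (P.coeff a0), t, ht, hto, ⟨fun a => ?_, a0, ?_, ?_⟩, hmin'⟩
  · rw [coeff_C_mul]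
    by_cases ha : P.coeff a = 0
    · rw [ha, mul_zero, v.ord_zero]
    · rw [v.ord_mul _ _ ht ha, hto]
      have := hmin' a ha
      omega
  · rw [coeff_C_mul]; exact mul_ne_zero ht ha0
  · rw [coeff_C_mul, v.ord_mul _ _ ht ha0, hto]; omega

end

theorem gau : T_GAU := by
  intro k K ι _ _ _ v P Q c e hP hPQ a
  by_cases ha : Q.coeff a = 0
  · exact Or.inl ha
  right
  obtain ⟨b, hb, hbe⟩ := hP
  have hP0 : P ≠ 0 := by rintro rfl; simp at hb
  have hQ0 : Q ≠ 0 := by rintro rfl; simp at ha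
  obtain ⟨n, t, ht, hto, hpt, hn⟩ := exists_scale v P hP0
  obtain ⟨m, u, hu, huo, hpu, hm⟩ := exists_scale v Q hQ0
  obtain ⟨d, hd, hdo⟩ := prim_mul v hpt hpu
  have h1 : (C t * P) * (C u * Q) = C (t * u) * (P * Q) := by
    rw [C_mul]; ring
  rw [h1, coeff_C_mul] at hd hdo
  have hd' : (P * Q).coeff d ≠ 0 := right_ne_zero_of_mul hd
  rw [v.ord_mul _ _ (mul_ne_zero ht hu) hd', v.ord_mul _ _ ht hu, hto, huo] at hdo
  have h2 := hn b hb
  have h3 := hm a ha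
  rcases hPQ d with h4 | h4
  · exact absurd h4 hd'
  · omega

end Pool.Agent.H49.SCD
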