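import Pool.Agent.H93.SC.Targets2
import Pool.Agent.H19.SCD.TargetsD

/-!
KER: the equation of the generic section generates all relations (MP_f2954d_ag).
-/

namespace Pool.Agent.H49.SCD

open SC MvPolynomial

section

variable {K L : Type} [Field K] [Field L] [Algebra K L] (s : Sys K) (i0 : Fin s.r)

open Classical in
/-- substitution solving the equation for the variable `i0` -/
noncomputable def sub : Var (fun _ : Unit => s) →
    MvPolynomial {x : Var (fun _ : Unit => s) // x.2 ≠ i0} K := fun x =>
  if h : x.2 ≠ i0 then X ⟨x, h⟩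
  else - ∑ i : Fin s.r, if h : i ≠ i0 then C (s.s i / s.s i0) * X ⟨⟨(), i⟩, h⟩ else 0

/-- the substitution as an algebra map -/
noncomputable def si : MvPolynomial (Var (fun _ : Unit => s)) K →ₐ[K]
    MvPolynomial {x : Var (fun _ : Unit => s) // x.2 ≠ i0} K := aeval (sub s i0)

/-- inclusion of the free variables -/
noncomputable def emb : MvPolynomial {x : Var (fun _ : Unit => s) // x.2 ≠ i0} K →ₐ[K]
    MvPolynomial (Var (fun _ : Unit => s)) K := rename Subtype.val

lemma sum_split {M : Type} [AddCommMonoid M] (f : Fin s.r → M) :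
    ∑ i, f i = f i0 + ∑ i, (if i ≠ i0 then f i else 0) := by
  classical
  rw [← Finset.add_sum_erase _ _ (Finset.mem_univ i0)]
  congr 1
  rw [← Finset.add_sum_erase _ _ (Finset.mem_univ i0)]
  simp only [ne_eq, not_true_eq_false, if_false, zero_add]
  refine Finset.sum_congr rfl fun i hi => ?_
  rw [if_pos (Finset.ne_of_mem_erase hi)]

lemma key (h0 : s.s i0 ≠ 0) (x : Var (fun _ : Unit => s)) :
    lin s ∣ X x - emb s i0 (sub s i0 x) := by
  classical
  by_cases h : x.2 ≠ i0
  · simp [sub, h, emb]
  · rw [not_not] at h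
    obtain ⟨⟨⟩, i⟩ := x
    simp only at h
    subst h
    have : (X (⟨(), i⟩ : Var (fun _ : Unit => s)) : MvPolynomial _ K) - emb s i (sub s i ⟨(), i⟩)
        = lin s * C (1 / s.s i) := by
      rw [lin, Finset.sum_mul, sum_split s i]
      simp only [sub, emb, ne_eq, not_true_eq_false, dite_false, map_neg, map_sum, sub_neg_eq_add]
      congr 1
      · rw [mul_right_comm, ← C_mul, mul_one_div_cancel h0, C_1, one_mul]
      · refine Finset.sum_congr rfl fun j _ => ?_
        by_cases hj : j = i
        · simp [hj]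
        · rw [dif_pos hj, if_pos hj, map_mul, rename_C, rename_X, mul_right_comm, ← C_mul,
            mul_one_div]
    rw [this]
    exact dvd_mul_right _ _

lemma key2 (h0 : s.s i0 ≠ 0) (P : MvPolynomial (Var (fun _ : Unit => s)) K) :
    lin s ∣ P - emb s i0 (si s i0 P) := by
  rw [← Ideal.mem_span_singleton, ← Ideal.Quotient.eq]
  have : (Ideal.Quotient.mkₐ K (Ideal.span {lin s})) =
      ((Ideal.Quotient.mkₐ K (Ideal.span {lin s})).comp (emb s i0)).comp (si s i0) := by
    refine algHom_ext fun x => ?_
    have h := key s i0 h0 x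
    rw [← Ideal.mem_span_singleton, ← Ideal.Quotient.eq] at h
    simpa [si] using h
  have h2 := DFunLike.congr_fun this P
  simpa using h2

lemma key3 (U : Var (fun _ : Unit => s) → L) (h0 : s.s i0 ≠ 0)
    (hr : ∑ i, algebraMap K L (s.s i) * U ⟨(), i⟩ = 0)
    (P : MvPolynomial (Var (fun _ : Unit => s)) K) :
    aeval (fun x : {x : Var (fun _ : Unit => s) // x.2 ≠ i0} => U x.1) (si s i0 P) =
      aeval U P := by
  classical
  have : (aeval (fun x : {x : Var (fun _ : Unit => s) // x.2 ≠ i0} => U x.1)).comp (si s i0) =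
      (aeval U : MvPolynomial _ K →ₐ[K] L) := by
    refine algHom_ext fun x => ?_
    simp only [AlgHom.comp_apply, si, aeval_X]
    by_cases h : x.2 ≠ i0
    · simp [sub, h]
    · rw [not_not] at h
      obtain ⟨⟨⟩, i⟩ := x
      simp only at h
      subst h
      rw [sum_split s i] at hr
      have hn : algebraMap K L (s.s i) ≠ 0 := by simpa using h0
      simp only [sub, ne_eq, not_true_eq_false, dite_false, map_neg, map_sum]
      rw [neg_eq_iff_add_eq_zero]
      apply mul_left_cancel₀ hn
      rw [mul_zero, ← hr, mul_add, add_comm]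
      congr 1
      rw [Finset.mul_sum]
      refine Finset.sum_congr rfl fun j _ => ?_
      by_cases hj : j = i
      · simp [hj]
      · rw [dif_pos hj, if_pos hj, map_mul, aeval_C, aeval_X, ← mul_assoc, map_div₀,
          mul_div_cancel₀ _ hn]
  exact DFunLike.congr_fun this P

end

theorem ker : T_KER := by
  intro K L _ _ _ s U hs hU P hP
  obtain ⟨i0, h0⟩ := hs
  have hr := hU.rel ()
  have hi := hU.indep (fun _ => i0) (fun _ => h0)
  have h1 := key3 s i0 U h0 hr P
  rw [hP] at h1
  have h2 : si s i0 P = 0 := by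
    have hinj : Function.Injective
        (aeval (R := K) (fun x : {x : Var (fun _ : Unit => s) // x.2 ≠ i0} => U x.1)) := hi
    apply hinj
    rw [h1, map_zero]
  have h3 := key2 s i0 h0 P
  rw [h2, map_zero, sub_zero] at h3
  exact h3

end Pool.Agent.H49.SCD
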