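import Pool.Agent.H93.SC.Targets2
import Pool.Agent.H19.SCD.TargetsD

/-!
PW0: powers of a generating system of a finite extension (MP_f2954d_ag).
-/

namespace Pool.Agent.H49.SCD

open SC

section

variable {k K : Type} [Field k] [Field K] [Algebra k K] [Module.Finite k K]

/-- a submodule of a finite extension containing `1`: large powers form a subalgebra -/
lemma exists_pow_stable (Q : Submodule k K) (h1 : (1 : K) ∈ Q) :
    ∃ m₀ : ℕ, ∀ m : ℕ, m₀ ≤ m → Q ^ m = Q ^ m₀ := by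
  have hQ : (1 : Submodule k K) ≤ Q := Submodule.one_le.2 h1
  have hmono : Monotone fun m : ℕ => Q ^ m := fun a b hab => pow_le_pow_right₀ hQ hab
  obtain ⟨n, hn⟩ := monotone_stabilizes_iff_noetherian.2
    (inferInstance : IsNoetherian k K) ⟨fun m : ℕ => Q ^ m, hmono⟩
  exact ⟨n, fun m hm => (hn m hm).symm⟩

lemma pow_eq_top (s : Sys K) (hg : Generates k s) (i0 : Fin s.r) (h0 : s.s i0 ≠ 0)
    (Q : Submodule k K) (h1 : (1 : K) ∈ Q) (hQ : ∀ i, s.s i / s.s i0 ∈ Q) :
    ∃ m₀ : ℕ, ∀ m : ℕ, m₀ ≤ m → Q ^ m = ⊤ := by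
  obtain ⟨m₀, hm₀⟩ := exists_pow_stable Q h1
  have hone : ∀ m : ℕ, (1 : K) ∈ Q ^ m := fun m => by
    have := Submodule.pow_mem_pow Q h1 m
    rwa [one_pow] at this
  have hmul : ∀ x y : K, x ∈ Q ^ m₀ → y ∈ Q ^ m₀ → x * y ∈ Q ^ m₀ := by
    intro x y hx hy
    have := Submodule.mul_mem_mul hx hy
    rwa [← pow_add, hm₀ (m₀ + m₀) (by omega)] at this
  have hmem : ∀ x : K, x ∈ Q → x ∈ Q ^ m₀ := by
    intro x hx
    rw [← hm₀ (m₀ + 1) (by omega), pow_succ]
    have := Submodule.mul_mem_mul (hone m₀) hx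
    rwa [one_mul] at this
  let R : Subalgebra k K := Submodule.toSubalgebra (Q ^ m₀) (hone m₀) hmul
  have hR : ∀ x : K, x ∈ R ↔ x ∈ Q ^ m₀ := fun x => Iff.rfl
  let F : IntermediateField k K := R.toIntermediateField fun x hx =>
    Subalgebra.inv_mem_of_algebraic (A := R) (x := ⟨x, hx⟩)
      (Algebra.IsAlgebraic.isAlgebraic x)
  have hF : ∀ x : K, x ∈ F ↔ x ∈ Q ^ m₀ := fun x => Iff.rfl
  have htop : F = ⊤ := by
    rw [eq_top_iff, ← show IntermediateField.adjoin k {z : K | ∃ i j, z = s.s i / s.s j} = ⊤ from hg,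
      IntermediateField.adjoin_le_iff]
    rintro z ⟨i, j, rfl⟩
    have hi : s.s i / s.s i0 ∈ F := (hF _).2 (hmem _ (hQ i))
    have hj : s.s j / s.s i0 ∈ F := (hF _).2 (hmem _ (hQ j))
    have := F.div_mem hi hj
    rwa [div_div_div_cancel_right₀ h0] at this
  refine ⟨m₀, fun m hm => ?_⟩
  rw [hm₀ m hm, eq_top_iff]
  intro x _
  rw [← hF, htop]
  exact IntermediateField.mem_top

end

lemma pow_top_of_scale {k K : Type} [Field k] [Field K] [Algebra k K] (P Q : Submodule k K)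
    (a : K) (ha : a ≠ 0) (h : ∀ x ∈ Q, a * x ∈ P) (m : ℕ) (hm : Q ^ m = ⊤) : P ^ m = ⊤ := by
  have key : ∀ n : ℕ, ∀ x ∈ Q ^ n, a ^ n * x ∈ P ^ n := by
    intro n
    induction n with
    | zero => intro x hx; simpa using hx
    | succ n ih =>
      intro x hx
      rw [pow_succ] at hx
      refine Submodule.mul_induction_on hx ?_ ?_
      · intro y hy z hz
        have h1 := Submodule.mul_mem_mul (ih y hy) (h z hz)
        rw [← pow_succ] at h1
        have h2 : a ^ (n + 1) * (y * z) = a ^ n * y * (a * z) := by ring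
        rw [h2]
        exact h1
      · intro y z hy hz
        rw [mul_add]
        exact Submodule.add_mem _ hy hz
  rw [eq_top_iff]
  intro x _
  have h1 := key m (x / a ^ m) (by rw [hm]; exact Submodule.mem_top)
  rwa [mul_div_cancel₀ _ (pow_ne_zero _ ha)] at h1

theorem pw0 : T_PW0 := by
  intro k K _ _ _ _ s hs hg
  obtain ⟨i0, h0⟩ := hs
  have hQ : ∀ i, s.s i / s.s i0 ∈ Submodule.span k (Set.range fun i => s.s i / s.s i0) :=
    fun i => Submodule.subset_span ⟨i, rfl⟩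
  have h1 : (1 : K) ∈ Submodule.span k (Set.range fun i => s.s i / s.s i0) := by
    have := hQ i0
    rwa [div_self h0] at this
  obtain ⟨m₀, hm₀⟩ := pow_eq_top s hg i0 h0 _ h1 hQ
  refine ⟨m₀, fun m hm => ?_⟩
  refine pow_top_of_scale _ _ (s.s i0) h0 ?_ m (hm₀ m hm)
  intro x hx
  induction hx using Submodule.span_induction with
  | mem x hx =>
    obtain ⟨i, rfl⟩ := hx
    refine Submodule.subset_span ⟨i, ?_⟩
    simp only
    rw [mul_div_cancel₀ _ h0]
  | zero => rw [mul_zero]; exact Submodule.zero_mem _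
  | add x y _ _ hx hy => rw [mul_add]; exact Submodule.add_mem _ hx hy
  | smul c x _ hx => rw [mul_smul_comm]; exact Submodule.smul_mem _ _ hx

end Pool.Agent.H49.SCD
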